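import Mathlib
import Pool.Agent.Q318.SgAlg.Alg

/-!
# Semigroup algebras of logically homogeneous semigroups need not be logically homogeneous

Let `E` be the chain `0 < 1 < 2` and `V` the semilattice `{0, p, q}` with `p q = 0`; their algebras over a field `P` are
isomorphic. The monoid `S` consists of `1`, a zero, the direct product of `E` with a countable left zero semigroup and
the direct product of `V` with an uncountable left zero semigroup (products of elements of different blocks are zero).
The two blocks look different in `S`, but in `PS` the two blocks can only be distinguished by their cardinalities.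
-/

set_option autoImplicit false

namespace Pool.Agent.Results.MP_c05c30_lc.Counterexample

open Pool.Agent.Q318.SgAlg
open FirstOrder FirstOrder.Language

theorem field_hom (R : Type) [Ring R] (h : ∀ x : R, x = 0 ∨ x = 1) (h01 : (0 : R) ≠ 1) : LogHom rg R := by
  intro n a b hab
  have hz : ∀ i, a i = 0 ↔ b i = 0 := by
    intro i
    let z : rg.Term (Fin n) := Term.func (RgF.zero : rg.Functions 0) ![]
    have := hab ((Term.var i).equal z)
    rw [Formula.realize_equal, Formula.realize_equal] at this
    exact this
  refine ⟨FirstOrder.Language.Equiv.refl rg R, fun i => ?_⟩
  change a i = b i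
  rcases h (a i) with h1 | h1 <;> rcases h (b i) with h2 | h2
  · rw [h1, h2]
  · exact absurd ((hz i).1 h1) (by rw [h2]; exact h01.symm)
  · exact absurd ((hz i).2 h2) (by rw [h1]; exact h01.symm)
  · rw [h1, h2]

/-- **The theorem.** There are a logically homogeneous semigroup `S` (even a monoid) and a logically homogeneous field
`P` (the field with two elements) such that the semigroup algebra `PS` is not logically homogeneous; this holds in the
language of `P`-algebras with `1` (`u = true`) and in the language of `P`-algebras without `1` (`u = false`). -/
theorem result : ∃ (S : Type) (_ : Monoid S) (P : Type) (_ : Field P),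
    LogHom sg S ∧ LogHom rg P ∧ ∀ u : Bool, ¬ LogHom (al P u) (MonoidAlgebra P S) := by
  have hi : Function.Injective (fun n : ℕ => (n : ℝ)) := Nat.cast_injective
  refine ⟨Sm ℕ ℝ, inferInstance, ZMod 2, inferInstance, logHom_Sm, ?_, fun u => ?_⟩
  · exact field_hom (ZMod 2) (by decide) (by decide)
  · exact not_logHom u ℝ _ hi

end Pool.Agent.Results.MP_c05c30_lc.Counterexample
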